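import Mathlib

/-!
# Tensor rank of matrix multiplication, the exponent, and approximate decompositions

Copy, for an arbitrary field, of `Pool.Agent.H515R2.MMR.Rank` (helper515, over `F`).
-/

namespace Pool.Agent.H826R3.SM

open Polynomial Finset

variable {F : Type} [Field F]

/-- The `n × n × n` matrix multiplication tensor over `F` is a sum of `r` rank-one tensors
(same formula as in the frozen statement `S14591`). -/
def HasRank (F : Type) [Field F] (n r : ℕ) : Prop :=
  ∃ a b c : Fin r → Fin n → Fin n → F,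
    ∀ i j j' k k' l : Fin n,
      (if j = j' ∧ k = k' ∧ l = i then (1 : F) else 0) =
        ∑ t : Fin r, a t i j * b t j' k * c t k' l

/-- Tensor rank of the `n × n × n` matrix multiplication tensor over `F`. -/
noncomputable def rk (F : Type) [Field F] (n : ℕ) : ℕ := sInf {r : ℕ | HasRank F n r}

/-- The exponent of matrix multiplication over `F`. -/
noncomputable def omegaMM (F : Type) [Field F] : ℝ :=
  sInf {τ : ℝ | ∃ C : ℝ, ∀ n : ℕ, (rk F n : ℝ) ≤ C * (n : ℝ) ^ τ}

/-- The same over arbitrary finite index types. -/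
def HasRankT (F : Type) [Field F] (I T : Type) [DecidableEq I] [Fintype T] : Prop :=
  ∃ a b c : T → I → I → F,
    ∀ i j j' k k' l : I,
      (if j = j' ∧ k = k' ∧ l = i then (1 : F) else 0) =
        ∑ t : T, a t i j * b t j' k * c t k' l

/-- Approximate (border) decomposition with error degree `h`. -/
def AD (F : Type) [Field F] (I T : Type) [DecidableEq I] [Fintype T] (h : ℕ) : Prop :=
  ∃ (a b c : T → I → I → F[X]) (P : I → I → I → I → I → I → F[X]),
    ∀ i j j' k k' l : I,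
      (∑ t : T, a t i j * b t j' k * c t k' l = X ^ h * P i j j' k k' l) ∧
      (P i j j' k k' l).eval 0 = if j = j' ∧ k = k' ∧ l = i then 1 else 0

lemma hasRankT_congr {I T I' T' : Type} [DecidableEq I] [Fintype T] [DecidableEq I']
    [Fintype T'] (e : I' ≃ I) (f : T' ≃ T) (H : HasRankT F I T) : HasRankT F I' T' := by
  obtain ⟨a, b, c, h⟩ := H
  refine ⟨fun t i j => a (f t) (e i) (e j), fun t i j => b (f t) (e i) (e j),
    fun t i j => c (f t) (e i) (e j), ?_⟩
  intro i j j' k k' l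
  have := h (e i) (e j) (e j') (e k) (e k') (e l)
  simp only [EmbeddingLike.apply_eq_iff_eq] at this
  rw [this]
  exact (Equiv.sum_comp f (fun t => a t (e i) (e j) * b t (e j') (e k) * c t (e k') (e l))).symm

lemma hasRank_of_hasRankT {I T : Type} [DecidableEq I] [Fintype I] [Fintype T] {n r : ℕ}
    (hn : Fintype.card I = n) (hr : Fintype.card T = r) (H : HasRankT F I T) : HasRank F n r := by
  subst hn; subst hr
  exact hasRankT_congr (Fintype.equivFin I).symm (Fintype.equivFin T).symm H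

lemma hasRank_mono {n N r : ℕ} (h : n ≤ N) (H : HasRank F N r) : HasRank F n r := by
  obtain ⟨a, b, c, hh⟩ := H
  refine ⟨fun t i j => a t (Fin.castLE h i) (Fin.castLE h j),
    fun t i j => b t (Fin.castLE h i) (Fin.castLE h j),
    fun t i j => c t (Fin.castLE h i) (Fin.castLE h j), ?_⟩
  intro i j j' k k' l
  have := hh (Fin.castLE h i) (Fin.castLE h j) (Fin.castLE h j') (Fin.castLE h k)
    (Fin.castLE h k') (Fin.castLE h l)
  simpa [Fin.ext_iff] using this

lemma hasRank_cube (n : ℕ) : HasRank F n (n ^ 3) := by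
  refine hasRank_of_hasRankT (I := Fin n) (T := Fin n × Fin n × Fin n) (by simp)
    (by simp [pow_succ, mul_assoc]) ?_
  refine ⟨fun t i j => if t.1 = i ∧ t.2.1 = j then 1 else 0,
    fun t j k => if t.2.1 = j ∧ t.2.2 = k then 1 else 0,
    fun t k i => if t.2.2 = k ∧ t.1 = i then 1 else 0, ?_⟩
  intro i j j' k k' l
  rw [Finset.sum_eq_single (i, j, k)]
  · by_cases h1 : j = j' <;> by_cases h2 : k = k' <;> by_cases h3 : l = i <;>
      simp [h1, h2, h3]
    intro h
    exact absurd h.symm h3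
  · rintro ⟨x, y, z⟩ - hne
    by_contra hc
    apply hne
    simp only [mul_ite, mul_one, mul_zero, ite_eq_right_iff, one_ne_zero, imp_false, not_not,
      not_forall, exists_prop] at hc
    obtain ⟨h3, h2, h1⟩ := hc
    simp [h1.1, h1.2, h2.2]
  · simp

lemma rk_le {n r : ℕ} (h : HasRank F n r) : rk F n ≤ r := Nat.sInf_le h

lemma hasRank_rk (n : ℕ) : HasRank F n (rk F n) :=
  Nat.sInf_mem (s := {r : ℕ | HasRank F n r}) ⟨_, hasRank_cube n⟩

lemma rk_mono {n N : ℕ} (h : n ≤ N) : rk F n ≤ rk F N := rk_le (hasRank_mono h (hasRank_rk N))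

lemma one_le_rk {n : ℕ} (hn : 1 ≤ n) : 1 ≤ rk F n := by
  by_contra h
  have h0 : rk F n = 0 := by omega
  have H := hasRank_rk (F := F) n
  rw [h0] at H
  obtain ⟨a, b, c, hh⟩ := H
  have := hh ⟨0, hn⟩ ⟨0, hn⟩ ⟨0, hn⟩ ⟨0, hn⟩ ⟨0, hn⟩ ⟨0, hn⟩
  simp at this

/-- Powers of approximate decompositions. -/
lemma AD.pow {I T : Type} [DecidableEq I] [Fintype T] {h : ℕ} (H : AD F I T h)
    (N : ℕ) : AD F (Fin N → I) (Fin N → T) (N * h) := by
  obtain ⟨a, b, c, P, hh⟩ := H
  refine ⟨fun t i j => ∏ s, a (t s) (i s) (j s), fun t i j => ∏ s, b (t s) (i s) (j s),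
    fun t i j => ∏ s, c (t s) (i s) (j s),
    fun i j j' k k' l => ∏ s, P (i s) (j s) (j' s) (k s) (k' s) (l s), ?_⟩
  intro i j j' k k' l
  constructor
  · calc ∑ t : Fin N → T, (∏ s, a (t s) (i s) (j s)) * (∏ s, b (t s) (j' s) (k s)) *
          (∏ s, c (t s) (k' s) (l s))
        = ∑ t : Fin N → T, ∏ s, (a (t s) (i s) (j s) * b (t s) (j' s) (k s) *
          c (t s) (k' s) (l s)) := by
          refine Finset.sum_congr rfl fun t _ => ?_
          rw [Finset.prod_mul_distrib, Finset.prod_mul_distrib]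
      _ = ∏ s, ∑ t : T, (a t (i s) (j s) * b t (j' s) (k s) * c t (k' s) (l s)) := by
          rw [Finset.prod_univ_sum, Fintype.piFinset_univ]
      _ = ∏ s, (X ^ h * P (i s) (j s) (j' s) (k s) (k' s) (l s)) :=
          Finset.prod_congr rfl fun s _ => (hh _ _ _ _ _ _).1
      _ = _ := by
          rw [Finset.prod_mul_distrib, Finset.prod_const, Finset.card_univ, Fintype.card_fin,
            ← pow_mul, mul_comm h N]
  · rw [Polynomial.eval_prod]
    rw [Finset.prod_congr rfl fun s _ => (hh (i s) (j s) (j' s) (k s) (k' s) (l s)).2]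
    by_cases hc : j = j' ∧ k = k' ∧ l = i
    · rw [if_pos hc]
      obtain ⟨rfl, rfl, rfl⟩ := hc
      simp
    · rw [if_neg hc]
      have : ∃ s, ¬ (j s = j' s ∧ k s = k' s ∧ l s = i s) := by
        by_contra hcon
        push Not at hcon
        exact hc ⟨funext fun s => (hcon s).1, funext fun s => (hcon s).2.1,
          funext fun s => (hcon s).2.2⟩
      obtain ⟨s, hs⟩ := this
      exact Finset.prod_eq_zero (Finset.mem_univ s) (if_neg hs)

lemma coeff_triple (p q r : F[X]) (h : ℕ) :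
    (p * q * r).coeff h = ∑ x : Fin (h + 1), ∑ y : Fin (h + 1),
      p.coeff x * q.coeff y * (if (x : ℕ) + y ≤ h then r.coeff (h - x - y) else 0) := by
  rw [mul_assoc, Polynomial.coeff_mul, Finset.Nat.sum_antidiagonal_eq_sum_range_succ_mk,
    Finset.sum_range]
  refine Finset.sum_congr rfl fun x _ => ?_
  rw [Polynomial.coeff_mul, Finset.Nat.sum_antidiagonal_eq_sum_range_succ_mk]
  simp only
  rw [← Finset.sum_range (f := fun y => p.coeff x * q.coeff y *
    (if (x : ℕ) + y ≤ h then r.coeff (h - x - y) else 0))]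
  have hx : (x : ℕ) ≤ h := Nat.lt_succ_iff.mp x.2
  rw [Finset.mul_sum]
  have hsub : Finset.range (h - x).succ ⊆ Finset.range (h + 1) := by
    apply Finset.range_subset_range.mpr; omega
  rw [← Finset.sum_subset hsub]
  · refine Finset.sum_congr rfl fun y hy => ?_
    rw [Finset.mem_range] at hy
    rw [if_pos (by omega)]
    ring
  · intro y hy hy'
    rw [Finset.mem_range] at hy hy'
    rw [if_neg (by omega), mul_zero]

/-- Extraction of an exact decomposition. -/
lemma AD.exact {I T : Type} [DecidableEq I] [Fintype T] {h : ℕ} (H : AD F I T h) :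
    HasRankT F I (T × Fin (h + 1) × Fin (h + 1)) := by
  obtain ⟨a, b, c, P, hh⟩ := H
  refine ⟨fun t i j => (a t.1 i j).coeff t.2.1, fun t i j => (b t.1 i j).coeff t.2.2,
    fun t i j => if (t.2.1 : ℕ) + t.2.2 ≤ h then (c t.1 i j).coeff (h - t.2.1 - t.2.2) else 0, ?_⟩
  intro i j j' k k' l
  rw [Fintype.sum_prod_type]
  simp only [Fintype.sum_prod_type]
  have h1 := congrArg (fun p => p.coeff h) (hh i j j' k k' l).1
  simp only [Polynomial.finsetSum_coeff] at h1
  rw [Polynomial.coeff_X_pow_mul', if_pos le_rfl, Nat.sub_self, Polynomial.coeff_zero_eq_eval_zero,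
    (hh i j j' k k' l).2] at h1
  rw [← h1]
  refine Finset.sum_congr rfl fun t _ => ?_
  rw [coeff_triple]

lemma AD.rk_pow_le {q r h : ℕ} (H : AD F (Fin q) (Fin r) h) (N : ℕ) :
    rk F (q ^ N) ≤ r ^ N * ((N * h + 1) ^ 2) := by
  refine rk_le (hasRank_of_hasRankT (I := Fin N → Fin q)
    (T := (Fin N → Fin r) × Fin (N * h + 1) × Fin (N * h + 1)) (by simp) ?_ (H.pow N).exact)
  simp [pow_two]

lemma AD.pos {q r h : ℕ} (hq : 1 ≤ q) (H : AD F (Fin q) (Fin r) h) : 1 ≤ r := by
  by_contra hr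
  have h0 : r = 0 := by omega
  subst h0
  have := H.exact
  obtain ⟨a, b, c, hh⟩ := this
  have := hh ⟨0, hq⟩ ⟨0, hq⟩ ⟨0, hq⟩ ⟨0, hq⟩ ⟨0, hq⟩ ⟨0, hq⟩
  simp at this

lemma bounded_aux (h : ℕ) (x : ℝ) (hx0 : 0 ≤ x) (hx : x < 1) :
    ∃ C : ℝ, 0 ≤ C ∧ ∀ N : ℕ, ((N : ℝ) * h + 1) ^ 2 * x ^ N ≤ C := by
  have habs : |x| < 1 := by rwa [abs_of_nonneg hx0]
  have t2 := tendsto_pow_const_mul_const_pow_of_abs_lt_one 2 habs
  have t1 := tendsto_pow_const_mul_const_pow_of_abs_lt_one 1 habs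
  have t0 := tendsto_pow_const_mul_const_pow_of_abs_lt_one 0 habs
  have tt := ((t2.const_mul ((h : ℝ) ^ 2)).add (t1.const_mul (2 * (h : ℝ)))).add t0
  obtain ⟨C, hC⟩ := tt.bddAbove_range
  refine ⟨max C 0, le_max_right _ _, fun N => le_trans ?_ (le_max_left _ _)⟩
  have := hC (Set.mem_range_self N)
  refine le_trans (le_of_eq ?_) this
  ring

/-- An approximate decomposition of `⟨q,q,q⟩` with `r` terms gives every exponent `τ`
with `r < q ^ τ`. -/
lemma AD.exponent {q r h : ℕ} (hq : 2 ≤ q) (H : AD F (Fin q) (Fin r) h) (τ : ℝ)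
    (hτ : (r : ℝ) < (q : ℝ) ^ τ) :
    ∃ C : ℝ, ∀ n : ℕ, (rk F n : ℝ) ≤ C * (n : ℝ) ^ τ := by
  have hr : 1 ≤ r := H.pos (by omega)
  have hr' : (1 : ℝ) ≤ r := by exact_mod_cast hr
  have hq1 : (1 : ℝ) < q := by exact_mod_cast (by omega : 1 < q)
  have hq0 : (0 : ℝ) < q := by linarith
  have hτ0 : 0 < τ := by
    by_contra hcon
    have := Real.rpow_le_one_of_one_le_of_nonpos hq1.le (not_lt.mp hcon)
    linarith
  set ρ : ℝ := (q : ℝ) ^ τ with hρ
  have hρ0 : 0 < ρ := Real.rpow_pos_of_pos hq0 _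
  obtain ⟨C, hC0, hC⟩ := bounded_aux h (r / ρ) (by positivity) (by rwa [div_lt_one hρ0])
  refine ⟨C * ρ, fun n => ?_⟩
  rcases Nat.eq_zero_or_pos n with hn | hn
  · subst hn
    have h0 : rk F 0 = 0 := by
      have : HasRank F 0 0 := ⟨fun _ _ _ => 0, fun _ _ _ => 0, fun _ _ _ => 0,
        fun i => i.elim0⟩
      exact Nat.le_zero.mp (rk_le this)
    rw [h0]
    simp [Real.zero_rpow hτ0.ne']
  · set N := Nat.clog q n with hN
    have h1 : n ≤ q ^ N := Nat.le_pow_clog (by omega) n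
    have h2 : q ^ N ≤ q * n := by
      rcases Nat.eq_zero_or_pos N with hz | hz
      · rw [hz, pow_zero]
        exact Nat.succ_le_of_lt (Nat.mul_pos (by omega) hn)
      · have hn2 : 1 < n := by
          by_contra hcon
          have : n = 1 := by omega
          rw [this, Nat.clog_one_right] at hN
          omega
        have := Nat.pow_pred_clog_lt_self (b := q) (by omega) hn2
        rw [← hN] at this
        calc q ^ N = q * q ^ (N - 1) := by
              rw [← pow_succ']; congr 1; omega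
          _ ≤ q * n := Nat.mul_le_mul_left _ this.le
    have h3 : (rk F n : ℝ) ≤ (r : ℝ) ^ N * ((N : ℝ) * h + 1) ^ 2 := by
      have := (rk_mono h1).trans (H.rk_pow_le N)
      exact_mod_cast this
    have h4 : (r : ℝ) ^ N * ((N : ℝ) * h + 1) ^ 2 ≤ C * ρ ^ N := by
      have := hC N
      rw [div_pow] at this
      have hp : 0 < ρ ^ N := pow_pos hρ0 N
      calc (r : ℝ) ^ N * ((N : ℝ) * h + 1) ^ 2
          = (((N : ℝ) * h + 1) ^ 2 * ((r : ℝ) ^ N / ρ ^ N)) * ρ ^ N := by
            field_simp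
        _ ≤ C * ρ ^ N := mul_le_mul_of_nonneg_right this hp.le
    have h5 : ρ ^ N ≤ ρ * (n : ℝ) ^ τ := by
      have e1 : ρ ^ N = ((q : ℝ) ^ N) ^ τ := by
        rw [hρ, ← Real.rpow_natCast ((q : ℝ) ^ τ) N, ← Real.rpow_mul hq0.le,
          ← Real.rpow_natCast (q : ℝ) N, ← Real.rpow_mul hq0.le, mul_comm]
      rw [e1, hρ, ← Real.mul_rpow hq0.le (Nat.cast_nonneg n)]
      apply Real.rpow_le_rpow (by positivity) _ hτ0.le
      exact_mod_cast h2
    calc (rk F n : ℝ) ≤ _ := h3
      _ ≤ C * ρ ^ N := h4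
      _ ≤ C * (ρ * (n : ℝ) ^ τ) := mul_le_mul_of_nonneg_left h5 hC0
      _ = C * ρ * (n : ℝ) ^ τ := by ring

lemma omega_set_nonneg {τ : ℝ} (h : ∃ C : ℝ, ∀ n : ℕ, (rk F n : ℝ) ≤ C * (n : ℝ) ^ τ) :
    0 ≤ τ := by
  obtain ⟨C, hC⟩ := h
  by_contra hcon
  push Not at hcon
  have t := (tendsto_rpow_neg_atTop (y := -τ) (by linarith)).comp
    (tendsto_natCast_atTop_atTop (R := ℝ))
  have t' := t.const_mul C
  rw [mul_zero] at t'
  have ev := t'.eventually (gt_mem_nhds (show (0 : ℝ) < 1 by norm_num))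
  obtain ⟨n, hn1, hn2⟩ := (ev.and (Filter.eventually_ge_atTop 1)).exists
  have h1 : (1 : ℝ) ≤ rk F n := by exact_mod_cast one_le_rk (F := F) hn2
  have h2 := hC n
  simp only [Function.comp, neg_neg] at hn1
  linarith

lemma omega_set_bddBelow :
    BddBelow {τ : ℝ | ∃ C : ℝ, ∀ n : ℕ, (rk F n : ℝ) ≤ C * (n : ℝ) ^ τ} :=
  ⟨0, fun _ h => omega_set_nonneg h⟩

lemma omega_set_nonempty :
    {τ : ℝ | ∃ C : ℝ, ∀ n : ℕ, (rk F n : ℝ) ≤ C * (n : ℝ) ^ τ}.Nonempty := by
  refine ⟨3, 1, fun n => ?_⟩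
  have := rk_le (hasRank_cube (F := F) n)
  rw [one_mul]
  have h : ((n : ℝ) ^ (3 : ℝ)) = ((n ^ 3 : ℕ) : ℝ) := by
    push_cast
    exact_mod_cast Real.rpow_natCast (n : ℝ) 3
  rw [h]
  exact_mod_cast this

lemma omega_nonneg : 0 ≤ omegaMM F :=
  le_csInf omega_set_nonempty fun _ h => omega_set_nonneg h

/-- **Bini / Strassen**: an approximate decomposition of `⟨q,q,q⟩` with `r` terms forces
`q ^ ω ≤ r`. -/
theorem AD.omega_le {q r h : ℕ} (hq : 1 ≤ q) (H : AD F (Fin q) (Fin r) h) :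
    (q : ℝ) ^ omegaMM F ≤ r := by
  rcases Nat.lt_or_ge 1 q with h2 | h2
  · by_contra hcon
    push Not at hcon
    have hq0 : (0 : ℝ) < q := by exact_mod_cast hq
    have hcont : Continuous fun τ : ℝ => (q : ℝ) ^ τ :=
      Real.continuous_const_rpow hq0.ne'
    have hev : ∀ᶠ τ in nhds (omegaMM F), (r : ℝ) < (q : ℝ) ^ τ :=
      (hcont.tendsto (omegaMM F)).eventually (lt_mem_nhds hcon)
    obtain ⟨δ, hδ, hball⟩ := Metric.eventually_nhds_iff.mp hev
    have hτ : (r : ℝ) < (q : ℝ) ^ (omegaMM F - δ / 2) := by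
      apply hball
      rw [Real.dist_eq]
      rw [show omegaMM F - δ / 2 - omegaMM F = -(δ / 2) by ring, abs_neg, abs_of_pos (by linarith)]
      linarith
    have hmem := H.exponent h2 _ hτ
    have : omegaMM F ≤ omegaMM F - δ / 2 := csInf_le omega_set_bddBelow hmem
    linarith
  · have : q = 1 := by omega
    subst this
    have := H.pos le_rfl
    simp only [Nat.cast_one, Real.one_rpow]
    exact_mod_cast this

end Pool.Agent.H826R3.SM
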